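import Pool.Agent.N208.BT.Stm

set_option autoImplicit false
set_option linter.unusedSectionVars false

/-!
# The group of isometries normalizing a Lie algebra (subtask BT/G)
-/

open Module Matrix

noncomputable section

namespace Pool.Agent.N607.BTG

open Pool.Agent.N208.BT

section gen

variable {E : Type} [NormedRing E] [NormedAlgebra ℝ E] [CompleteSpace E]

theorem exp_add' {E : Type} [NormedRing E] [NormedAlgebra ℝ E] [CompleteSpace E] {x y : E}
    (h : Commute x y) :
    NormedSpace.exp (x + y) = NormedSpace.exp x * NormedSpace.exp y :=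
  NormedSpace.exp_add_of_commute_of_mem_ball (𝕂 := ℝ) h
    ((NormedSpace.expSeries_radius_eq_top ℝ E).symm ▸ edist_lt_top _ _)
    ((NormedSpace.expSeries_radius_eq_top ℝ E).symm ▸ edist_lt_top _ _)

/-- left multiplication -/
def Lc (X : E) : E →L[ℝ] E := ContinuousLinearMap.mul ℝ E X

/-- right multiplication -/
def Rc (X : E) : E →L[ℝ] E := (ContinuousLinearMap.mul ℝ E).flip X

theorem Lc_apply (X Y : E) : Lc X Y = X * Y := rfl

theorem Rc_apply (X Y : E) : Rc X Y = Y * X := rfl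

theorem Lc_pow (X : E) (n : ℕ) : Lc X ^ n = Lc (X ^ n) := by
  induction n with
  | zero =>
    refine ContinuousLinearMap.ext fun Y => ?_
    rw [pow_zero, pow_zero, Lc_apply, one_mul]
    rfl
  | succ n ih =>
    refine ContinuousLinearMap.ext fun Y => ?_
    rw [pow_succ, pow_succ, ih, Lc_apply, mul_assoc]
    rfl

theorem Rc_pow (X : E) (n : ℕ) : Rc X ^ n = Rc (X ^ n) := by
  induction n with
  | zero =>
    refine ContinuousLinearMap.ext fun Y => ?_
    rw [pow_zero, pow_zero, Rc_apply, mul_one]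
    rfl
  | succ n ih =>
    refine ContinuousLinearMap.ext fun Y => ?_
    rw [pow_succ, pow_succ', ih, Rc_apply, ← mul_assoc]
    rfl

theorem exp_Lc (X : E) : NormedSpace.exp (Lc X) = Lc (NormedSpace.exp X) := by
  have h1 := NormedSpace.exp_series_hasSum_exp' (𝕂 := ℝ) X
  have h2 := (ContinuousLinearMap.mul ℝ E).hasSum h1
  have h3 := NormedSpace.exp_series_hasSum_exp' (𝕂 := ℝ) (Lc X)
  have h4 : (fun k : ℕ => (ContinuousLinearMap.mul ℝ E)
      (((k.factorial : ℝ)⁻¹) • X ^ k)) = fun k : ℕ => ((k.factorial : ℝ)⁻¹) • Lc X ^ k := by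
    funext k
    rw [Lc_pow, map_smul]
    rfl
  rw [h4] at h2
  exact h3.unique h2

theorem exp_Rc (X : E) : NormedSpace.exp (Rc X) = Rc (NormedSpace.exp X) := by
  have h1 := NormedSpace.exp_series_hasSum_exp' (𝕂 := ℝ) X
  have h2 := (ContinuousLinearMap.mul ℝ E).flip.hasSum h1
  have h3 := NormedSpace.exp_series_hasSum_exp' (𝕂 := ℝ) (Rc X)
  have h4 : (fun k : ℕ => (ContinuousLinearMap.mul ℝ E).flip
      (((k.factorial : ℝ)⁻¹) • X ^ k)) = fun k : ℕ => ((k.factorial : ℝ)⁻¹) • Rc X ^ k := by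
    funext k
    rw [Rc_pow, map_smul]
    rfl
  rw [h4] at h2
  exact h3.unique h2

/-- Conjugation by the exponential is the exponential of the commutator. -/
theorem exp_conj (X M : E) :
    NormedSpace.exp X * M * NormedSpace.exp (-X) = NormedSpace.exp (Lc X + Rc (-X)) M := by
  have h1 : Commute (Lc X) (Rc (-X)) := by
    refine ContinuousLinearMap.ext fun Y => ?_
    change X * (Y * -X) = X * Y * -X
    rw [mul_assoc]
  rw [exp_add' h1, exp_Lc, exp_Rc]
  change _ = NormedSpace.exp X * (M * NormedSpace.exp (-X))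
  rw [mul_assoc]

theorem exp_conj_mem [FiniteDimensional ℝ E] {S : Submodule ℝ E} {X M : E}
    (hS : ∀ N ∈ S, X * N - N * X ∈ S) (hM : M ∈ S) :
    NormedSpace.exp X * M * NormedSpace.exp (-X) ∈ S := by
  rw [exp_conj]
  have h0 : ∀ Y, (Lc X + Rc (-X)) Y = X * Y - Y * X := by
    intro Y
    change X * Y + Y * -X = _
    rw [mul_neg, sub_eq_add_neg]
  have h1 : ∀ k : ℕ, ((Lc X + Rc (-X)) ^ k) M ∈ S := by
    intro k
    induction k with
    | zero =>
      rw [pow_zero]
      exact hM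
    | succ k ih =>
      rw [pow_succ']
      change (Lc X + Rc (-X)) (((Lc X + Rc (-X)) ^ k) M) ∈ S
      rw [h0]
      exact hS _ ih
  have h2 := NormedSpace.exp_series_hasSum_exp' (𝕂 := ℝ) (Lc X + Rc (-X))
  have h3 := (ContinuousLinearMap.apply ℝ E M).hasSum h2
  have hcl : IsClosed (S : Set E) := S.closed_of_finiteDimensional
  refine hcl.mem_of_tendsto h3 (Filter.Eventually.of_forall fun s => ?_)
  refine S.sum_mem fun k _ => ?_
  change ((k.factorial : ℝ)⁻¹) • ((Lc X + Rc (-X)) ^ k) M ∈ S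
  exact S.smul_mem _ (h1 k)

end gen

section norms

attribute [local instance] Matrix.linftyOpNormedRing Matrix.linftyOpNormedAlgebra

theorem exp_conj_mat {n : ℕ} {S : Submodule ℝ (M n)} {X Y : M n}
    (hS : ∀ N ∈ S, X * N - N * X ∈ S) (hM : Y ∈ S) :
    NormedSpace.exp X * Y * NormedSpace.exp (-X) ∈ S :=
  exp_conj_mem (E := M n) hS hM

theorem hasDeriv_exp {n : ℕ} (X : M n) (u : V n) (ψ : V n →ₗ[ℂ] ℂ) :
    HasDerivAt (fun t : ℝ => ψ ((NormedSpace.exp (t • X) : M n) *ᵥ u)) (ψ (X *ᵥ u)) 0 := by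
  have h1 := hasDerivAt_exp_smul_const (𝕂 := ℝ) X (0 : ℝ)
  let L : M n →ₗ[ℝ] ℂ :=
    { toFun := fun A => ψ (A *ᵥ u)
      map_add' := fun A B => by rw [add_mulVec, map_add]
      map_smul' := fun c A => by
        rw [smul_mulVec, RingHom.id_apply]
        have : c • (A *ᵥ u) = (c : ℂ) • (A *ᵥ u) := rfl
        rw [this, map_smul]
        rfl }
  have h2 := (LinearMap.toContinuousLinearMap L).hasFDerivAt.comp_hasDerivAt (0 : ℝ) h1
  rw [zero_smul, NormedSpace.exp_zero, one_mul] at h2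
  exact h2

end norms

variable {n : ℕ}

/-- the matrix of the form -/
def J (n : ℕ) : M n := Matrix.diagonal (Fin.cons 1 fun _ => -1)

theorem J_mul_J : J n * J n = 1 := by
  rw [J, Matrix.diagonal_mul_diagonal, ← Matrix.diagonal_one]
  congr 1
  funext i
  refine Fin.cases ?_ (fun j => ?_) i
  · simp
  · simp

theorem hf_eq (x y : V n) : hf x y = star y ⬝ᵥ (J n *ᵥ x) := by
  rw [hf, dotProduct, Fin.sum_univ_succ]
  simp only [J, Matrix.mulVec_diagonal, Fin.cons_zero, Fin.cons_succ, Pi.star_apply, one_mul,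
    neg_one_mul, neg_mul, mul_neg, Finset.sum_neg_distrib]
  rw [sub_eq_add_neg, mul_comm]
  congr 2
  refine Finset.sum_congr rfl fun i _ => mul_comm _ _

theorem ext_form {A B : M n} (h : ∀ x y : V n, star y ⬝ᵥ (A *ᵥ x) = star y ⬝ᵥ (B *ᵥ x)) :
    A = B := by
  ext i j
  have := h (Pi.single j 1) (Pi.single i 1)
  simpa using this

theorem isSk_iff (X : M n) : IsSk X ↔ Xᴴ * J n = -(J n * X) := by
  have key : ∀ x y : V n, hf (X *ᵥ x) y + hf x (X *ᵥ y) =
      star y ⬝ᵥ ((J n * X + Xᴴ * J n) *ᵥ x) := by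
    intro x y
    rw [hf_eq, hf_eq, star_mulVec, ← dotProduct_mulVec, mulVec_mulVec, mulVec_mulVec,
      ← dotProduct_add, ← add_mulVec]
  constructor
  · intro h
    have h1 : J n * X + Xᴴ * J n = 0 := by
      refine ext_form fun x y => ?_
      rw [← key, h x y, zero_mulVec, dotProduct_zero]
    exact eq_neg_of_add_eq_zero_right h1
  · intro h x y
    rw [key, h, add_neg_cancel, zero_mulVec, dotProduct_zero]

theorem isU_of (g : M n) (h : gᴴ * J n * g = J n) : IsU g := by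
  intro x y
  rw [hf_eq, hf_eq, star_mulVec, ← dotProduct_mulVec, mulVec_mulVec, mulVec_mulVec, h]

theorem isU_exp {X : M n} (hX : IsSk X) : IsU (NormedSpace.exp X) := by
  rw [isSk_iff] at hX
  apply isU_of
  have hJu : IsUnit (J n) := IsUnit.of_mul_eq_one _ J_mul_J
  have hJi : (J n)⁻¹ = J n := Matrix.inv_eq_left_inv J_mul_J
  have h1 : Xᴴ = J n * (-X) * (J n)⁻¹ := by
    rw [hJi, mul_neg, ← hX, Matrix.mul_assoc, J_mul_J, Matrix.mul_one]
  rw [← Matrix.exp_conjTranspose, h1, Matrix.exp_conj _ _ hJu, hJi, Matrix.mul_assoc (J n * _),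
    J_mul_J, Matrix.mul_one, Matrix.mul_assoc, ← Matrix.exp_add_of_commute _ _
      ((Commute.refl X).neg_left), neg_add_cancel, NormedSpace.exp_zero, Matrix.mul_one]

theorem exp_mul_neg (X : M n) : (NormedSpace.exp X : M n) * NormedSpace.exp (-X) = 1 := by
  rw [← Matrix.exp_add_of_commute _ _ ((Commute.refl X).neg_right), add_neg_cancel,
    NormedSpace.exp_zero]

theorem exp_neg_mul (X : M n) : (NormedSpace.exp (-X) : M n) * NormedSpace.exp X = 1 := by
  rw [← Matrix.exp_add_of_commute _ _ ((Commute.refl X).neg_left), neg_add_cancel,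
    NormedSpace.exp_zero]

/-- The group: isometries normalizing the Lie algebra. -/
def Q (𝔯 : Submodule ℝ (M n)) : Set (M n) :=
  {g | IsU g ∧ ∃ g' : M n, g * g' = 1 ∧ g' * g = 1 ∧ IsU g' ∧ (∀ y ∈ 𝔯, g * y * g' ∈ 𝔯) ∧
    ∀ y ∈ 𝔯, g' * y * g ∈ 𝔯}

theorem main : S_G := by
  intro n 𝔯 h𝔯
  have hU1 : IsU (1 : M n) := fun x y => by rw [one_mulVec, one_mulVec]
  have hUm : ∀ g g' : M n, IsU g → IsU g' → IsU (g * g') := by
    intro g g' hg hg' x y
    rw [← mulVec_mulVec, ← mulVec_mulVec, hg, hg']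
  have hexp : ∀ X ∈ 𝔯, NormedSpace.exp X ∈ Q 𝔯 := by
    intro X hX
    have hX' : -X ∈ 𝔯 := 𝔯.neg_mem hX
    refine ⟨isU_exp (h𝔯.sk X hX), NormedSpace.exp (-X), exp_mul_neg X, exp_neg_mul X,
      isU_exp (h𝔯.sk _ hX'), fun y hy => ?_, fun y hy => ?_⟩
    · exact exp_conj_mat (fun N hN => h𝔯.br X hX N hN) hy
    · have := exp_conj_mat (X := -X) (fun N hN => h𝔯.br (-X) hX' N hN) hy
      rwa [neg_neg] at this
  refine ⟨Q 𝔯, ?_, ?_, ?_, ?_, ?_, ?_⟩
  · refine ⟨hU1, 1, by simp, by simp, hU1, fun y hy => ?_, fun y hy => ?_⟩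
    · simpa using hy
    · simpa using hy
  · rintro a ⟨ha, a', h1, h2, h3, h4, h5⟩ b ⟨hb, b', k1, k2, k3, k4, k5⟩
    refine ⟨hUm _ _ ha hb, b' * a', ?_, ?_, hUm _ _ k3 h3, fun y hy => ?_, fun y hy => ?_⟩
    · calc a * b * (b' * a') = a * (b * b') * a' := by noncomm_ring
        _ = 1 := by rw [k1, Matrix.mul_one, h1]
    · calc b' * a' * (a * b) = b' * (a' * a) * b := by noncomm_ring
        _ = 1 := by rw [h2, Matrix.mul_one, k2]
    · have : a * b * y * (b' * a') = a * (b * y * b') * a' := by noncomm_ring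
      rw [this]
      exact h4 _ (k4 _ hy)
    · have : b' * a' * y * (a * b) = b' * (a' * y * a) * b := by noncomm_ring
      rw [this]
      exact k5 _ (h5 _ hy)
  · rintro a ⟨ha, a', h1, h2, h3, h4, h5⟩
    exact ⟨a', ⟨h3, a, h2, h1, ha, h5, h4⟩, h1, h2⟩
  · rintro a ⟨ha, -⟩
    exact ha
  · intro U hU
    refine h𝔯.irr U fun X hX u hu => ?_
    by_contra hcon
    obtain ⟨ψ, hψ2, hψ1⟩ := Submodule.exists_le_ker_of_notMem hcon
    apply hψ2
    have h1 := hasDeriv_exp X u ψ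
    have h2 : (fun t : ℝ => ψ ((NormedSpace.exp (t • X) : M n) *ᵥ u)) = fun _ => 0 := by
      funext t
      exact LinearMap.mem_ker.1 (hψ1 (hU _ (hexp _ (𝔯.smul_mem t hX)) u hu))
    rw [h2] at h1
    exact h1.unique (hasDerivAt_const _ _)
  · rintro g ⟨_, a, h1, h2, _, h4, _⟩ g' hg' y hy
    have : g' = a := by
      calc g' = (a * g) * g' := by rw [h2, Matrix.one_mul]
        _ = a := by rw [Matrix.mul_assoc, hg', Matrix.mul_one]
    rw [this]
    exact h4 y hy

end Pool.Agent.N607.BTG
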