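import Pool.Agent.N367.LE.Stm

/-!
Project LE: the small cases.
-/

set_option autoImplicit false

namespace Pool.Agent.N607.LESM

theorem beq_i {a b : ℕ} : Nat.beq a b = true ↔ a = b := by rw [Nat.beq_eq]

theorem blt_i {a b : ℕ} : Nat.blt a b = true ↔ a < b := by rw [Nat.blt_eq]

theorem ble_i {a b : ℕ} : Nat.ble a b = true ↔ a ≤ b := by rw [Nat.ble_eq]

/-! ### Loops -/

/-- all values below `n` -/
noncomputable def allb (f : ℕ → Bool) (n : ℕ) : Bool :=
  Nat.rec true (fun k ih => and (f k) ih) n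

/-- some value below `n` -/
noncomputable def anyb (f : ℕ → Bool) (n : ℕ) : Bool :=
  Nat.rec false (fun k ih => or (f k) ih) n

theorem allb_iff (f : ℕ → Bool) (n : ℕ) : allb f n = true ↔ ∀ k < n, f k = true := by
  induction n with
  | zero => simp [allb]
  | succ n ih =>
    have h1 : allb f (n + 1) = and (f n) (allb f n) := rfl
    rw [h1, Bool.and_eq_true, ih]
    constructor
    · rintro ⟨h2, h3⟩ k hk
      rcases Nat.lt_succ_iff_lt_or_eq.1 hk with h | h
      · exact h3 k h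
      · rw [h]
        exact h2
    · intro h2
      exact ⟨h2 n (Nat.lt_succ_self n), fun k hk => h2 k (Nat.lt_succ_of_lt hk)⟩

theorem anyb_iff (f : ℕ → Bool) (n : ℕ) : anyb f n = true ↔ ∃ k < n, f k = true := by
  induction n with
  | zero => simp [anyb]
  | succ n ih =>
    have h1 : anyb f (n + 1) = or (f n) (anyb f n) := rfl
    rw [h1, Bool.or_eq_true, ih]
    constructor
    · rintro (h2 | ⟨k, hk, h2⟩)
      · exact ⟨n, Nat.lt_succ_self n, h2⟩
      · exact ⟨k, Nat.lt_succ_of_lt hk, h2⟩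
    · rintro ⟨k, hk, h2⟩
      rcases Nat.lt_succ_iff_lt_or_eq.1 hk with h | h
      · exact Or.inr ⟨k, h, h2⟩
      · rw [h] at h2
        exact Or.inl h2

/-! ### Squares -/

/-- `a` is a nonzero square modulo `r` -/
noncomputable def sq (r a : ℕ) : Bool :=
  and (not (Nat.beq (Nat.mod a r) 0)) (anyb (fun x => Nat.beq (Nat.mod (Nat.mul x x) r) (Nat.mod a r)) r)

theorem sq_jac {r a : ℕ} (hr : r.Prime) (h : sq r a = true) : jacobiSym (a : ℤ) r = 1 := by
  rw [sq, Bool.and_eq_true, anyb_iff] at h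
  obtain ⟨h1, x, -, h2⟩ := h
  have h3 : a % r ≠ 0 := by
    intro h4
    have h5 : Nat.beq (Nat.mod a r) 0 = true := beq_i.2 h4
    rw [h5] at h1
    exact absurd h1 (by decide)
  have h4 : x * x % r = a % r := beq_i.1 h2
  have : Fact r.Prime := ⟨hr⟩
  rw [← jacobiSym.legendreSym.to_jacobiSym]
  have h5 : ((a : ℤ) : ZMod r) ≠ 0 := by
    intro h6
    apply h3
    have h7 : ((a : ℕ) : ZMod r) = 0 := by exact_mod_cast h6
    exact Nat.mod_eq_zero_of_dvd ((ZMod.natCast_eq_zero_iff a r).1 h7)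
  rw [legendreSym.eq_one_iff r h5]
  refine ⟨(x : ZMod r), ?_⟩
  have h6 : ((x * x : ℕ) : ZMod r) = ((a : ℕ) : ZMod r) := (ZMod.natCast_eq_natCast_iff' _ _ _).2 h4
  push_cast at h6 ⊢
  exact h6.symm

/-! ### The check -/

/-- the witnesses -/
def rl : List ℕ := [3, 5, 7, 11, 13, 17, 19, 23, 29, 31, 37, 41, 43, 47]

/-- the test of a witness -/
noncomputable def wit1 (D p r : ℕ) : Bool :=
  and (Nat.blt (Nat.mul 4 (Nat.mul r r)) D) (and (sq r D)
    (or (Nat.ble (Nat.mul 4 (Nat.mul (Nat.mul r r) (Nat.mul r r))) D)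
      (and (Nat.beq (Nat.mod p 4) 1) (sq r p))))

/-- there is a witness -/
noncomputable def wit (D p : ℕ) : Bool :=
  List.rec false (fun r _ ih => or (wit1 D p r) ih) rl

/-- `m` is composite -/
noncomputable def comp (m : ℕ) : Bool :=
  anyb (fun k => and (Nat.beq (Nat.mod m (Nat.add (Nat.mul 2 k) 3)) 0)
    (Nat.blt (Nat.add (Nat.mul 2 k) 3) m)) 360

/-- the test of a divisor -/
noncomputable def chd (D d : ℕ) : Bool :=
  or (not (Nat.beq (Nat.mod D d) 0)) (or (Nat.ble D (Nat.mul d d))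
    (or (wit D d) (or (comp d) (comp (Nat.div D d)))))

/-- the test of `n` -/
noncomputable def chn (n : ℕ) : Bool :=
  allb (fun k => chd (Nat.add (Nat.mul n n) 4) (Nat.add (Nat.mul 2 k) 3)) 360

/-- the exceptions -/
noncomputable def exc (n : ℕ) : Bool :=
  or (Nat.beq n 9) (or (Nat.beq n 19) (or (Nat.beq n 23) (or (Nat.beq n 25) (or (Nat.beq n 31)
    (or (Nat.beq n 41) (or (Nat.beq n 43) (Nat.beq n 53)))))))

/-- the whole check -/
noncomputable def chk (a b : ℕ) : Bool :=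
  allb (fun k => or (exc (Nat.add (Nat.mul 2 (Nat.add a k)) 1))
    (chn (Nat.add (Nat.mul 2 (Nat.add a k)) 1))) b

theorem chk_all : chk 0 361 = true := by decide +kernel

theorem comp_np {m : ℕ} (h : comp m = true) : ¬ m.Prime := by
  rw [comp, anyb_iff] at h
  obtain ⟨k, -, h1⟩ := h
  rw [Bool.and_eq_true] at h1
  have h2 : m % (2 * k + 3) = 0 := beq_i.1 h1.1
  have h3 : 2 * k + 3 < m := blt_i.1 h1.2
  intro hm
  rcases (Nat.dvd_prime hm).1 (Nat.dvd_of_mod_eq_zero h2) with h4 | h4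
  · omega
  · omega

theorem wit_ex {D p : ℕ} (h : wit D p = true) : ∃ r ∈ rl, wit1 D p r = true := by
  have key : ∀ l : List ℕ, (List.rec false (fun r _ ih => or (wit1 D p r) ih) l : Bool) = true →
      ∃ r ∈ l, wit1 D p r = true := by
    intro l
    induction l with
    | nil =>
      intro h
      exact absurd h Bool.false_ne_true
    | cons a l ih =>
      intro h
      have h1 : or (wit1 D p a)
        (List.rec false (fun r _ ih => or (wit1 D p r) ih) l : Bool) = true := h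
      rw [Bool.or_eq_true] at h1
      rcases h1 with h1 | h1
      · exact ⟨a, List.mem_cons_self, h1⟩
      · obtain ⟨r, hr, h2⟩ := ih h1
        exact ⟨r, List.mem_cons_of_mem a hr, h2⟩
  exact key rl h

theorem rl_prime : ∀ r ∈ rl, r.Prime ∧ r ≠ 2 := by
  intro r hr
  simp only [rl, List.mem_cons, List.not_mem_nil, or_false] at hr
  rcases hr with rfl | rfl | rfl | rfl | rfl | rfl | rfl | rfl | rfl | rfl | rfl | rfl | rfl | rfl <;>
    norm_num

theorem main (n p q : ℕ) (hn : n % 2 = 1) (hp : p.Prime) (hq : q.Prime) (hpq : p < q)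
    (hD : n ^ 2 + 4 = p * q) (hn2 : n < 722)
    (hr : ∀ r : ℕ, r.Prime → r ≠ 2 → jacobiSym ((n : ℤ) ^ 2 + 4) r = 1 →
      4 * r ^ 2 < n ^ 2 + 4 → jacobiSym r p = -1 ∧ n ^ 2 + 4 < 4 * r ^ 4) :
    n = 9 ∨ n = 19 ∨ n = 23 ∨ n = 25 ∨ n = 31 ∨ n = 41 ∨ n = 43 ∨ n = 53 := by
  have hodd : (n ^ 2 + 4) % 2 = 1 := by
    rw [Nat.add_mod, Nat.pow_mod, hn]
  have hp2 : p % 2 = 1 := by
    rcases hp.eq_two_or_odd with h | h
    · rw [hD, h, Nat.mul_mod_right] at hodd
      omega
    · exact h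
  have hp3 : 3 ≤ p := by
    have := hp.two_le
    omega
  have hpl : p < 722 := by
    by_contra h
    push Not at h
    have h1 : 722 * 722 ≤ p * q := Nat.mul_le_mul h (by omega)
    have h2 : n ^ 2 ≤ 721 ^ 2 := Nat.pow_le_pow_left (by omega) 2
    omega
  have h1 := (allb_iff _ _).1 chk_all (n / 2) (by omega)
  have e1 : Nat.add (Nat.mul 2 (Nat.add 0 (n / 2))) 1 = n := by
    show 2 * (0 + n / 2) + 1 = n
    omega
  rw [e1, Bool.or_eq_true] at h1
  rcases h1 with h1 | h1
  · simp only [exc, Bool.or_eq_true, beq_i] at h1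
    exact h1
  exfalso
  have h2 := (allb_iff _ _).1 h1 ((p - 3) / 2) (by omega)
  have e2 : Nat.add (Nat.mul 2 ((p - 3) / 2)) 3 = p := by
    show 2 * ((p - 3) / 2) + 3 = p
    omega
  have e3 : Nat.add (Nat.mul n n) 4 = n ^ 2 + 4 := by
    show n * n + 4 = n ^ 2 + 4
    rw [pow_two]
  rw [e2, e3] at h2
  set D := n ^ 2 + 4 with hDD
  simp only [chd, Bool.or_eq_true] at h2
  rcases h2 with h2 | h2 | h2 | h2 | h2
  · have h3 : D % p = 0 := by
      rw [hD]
      exact Nat.mul_mod_right p q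
    have h4 : Nat.beq (Nat.mod D p) 0 = true := beq_i.2 h3
    rw [h4] at h2
    exact absurd h2 (by decide)
  · have h3 : D ≤ p * p := ble_i.1 h2
    rw [hD] at h3
    have h4 : p * p < p * q := Nat.mul_lt_mul_of_pos_left hpq hp.pos
    omega
  · obtain ⟨r, hrl, h3⟩ := wit_ex h2
    obtain ⟨h4, h5⟩ := rl_prime r hrl
    rw [wit1, Bool.and_eq_true, Bool.and_eq_true, Bool.or_eq_true, Bool.and_eq_true] at h3
    obtain ⟨h6, h7, h8⟩ := h3
    have h9 := sq_jac h4 h7
    have h10 : 4 * r ^ 2 < D := by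
      have h11 : 4 * (r * r) < D := blt_i.1 h6
      rw [pow_two]
      exact h11
    have h12 : jacobiSym ((n : ℤ) ^ 2 + 4) r = 1 := by
      rw [hDD] at h9
      push_cast at h9
      exact h9
    obtain ⟨h13, h14⟩ := hr r h4 h5 h12 h10
    rcases h8 with h8 | ⟨h8, h15⟩
    · have h16 : 4 * ((r * r) * (r * r)) ≤ D := ble_i.1 h8
      have h17 : 4 * r ^ 4 = 4 * ((r * r) * (r * r)) := by ring
      rw [h17] at h14
      omega
    · have h16 : p % 4 = 1 := beq_i.1 h8
      have h17 := sq_jac h4 h15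
      have h18 : Odd r := h4.odd_of_ne_two h5
      rw [jacobiSym.quadratic_reciprocity_one_mod_four h16 h18] at h17
      rw [h17] at h13
      exact absurd h13 (by decide)
  · exact comp_np h2 hp
  · have h3 : Nat.div D p = q := by
      show D / p = q
      rw [hD]
      exact Nat.mul_div_cancel_left q hp.pos
    rw [h3] at h2
    exact comp_np h2 hq

theorem sm : Pool.Agent.N367.LE.S_SM := main

end Pool.Agent.N607.LESM
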