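import Pool.Agent.N964.GX.Stm
import Pool.Agent.N967.Mom

/-!
# High moments of Dirichlet polynomials over the primes with complex coefficients (helper607)
-/

set_option autoImplicit false

namespace Pool.Agent.N607.GXB

open Complex MeasureTheory Pool.Agent.N967.MomAux

/-- the coefficients of the power -/
noncomputable def Cc (c : ℕ → ℂ) (X k n : ℕ) : ℂ := ∑ f ∈ Fb X k n, ∏ i, c (f i)

theorem pow_eqc (c : ℕ → ℂ) (X k : ℕ) (t : ℝ) :
    (∑ p ∈ Pr X, c p * (p : ℂ) ^ (-(t : ℂ) * I)) ^ k =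
      ∑ n ∈ Finset.Icc 1 (X ^ k), Cc c X k n * (n : ℂ) ^ (-(t : ℂ) * I) := by
  classical
  have h1 : (∑ p ∈ Pr X, c p * (p : ℂ) ^ (-(t : ℂ) * I)) ^ k =
      ∑ f ∈ Fintype.piFinset (fun _ : Fin k => Pr X),
        ∏ i, (c (f i) * ((f i : ℕ) : ℂ) ^ (-(t : ℂ) * I)) := by
    rw [← Finset.prod_univ_sum (fun _ : Fin k => Pr X)
      (fun _ p => c p * (p : ℂ) ^ (-(t : ℂ) * I))]
    simp
  rw [h1, ← Finset.sum_fiberwise_of_maps_to (g := fun f : Fin k → ℕ => ∏ i, f i)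
    (t := Finset.Icc 1 (X ^ k)) (fun f hf => prod_mem hf)]
  refine Finset.sum_congr rfl fun n hn => ?_
  unfold Cc Fb
  rw [Finset.sum_mul]
  refine Finset.sum_congr rfl fun f hf => ?_
  rw [Finset.mem_filter] at hf
  rw [Finset.prod_mul_distrib, prod_cpow, hf.2]

theorem sum_Cc (c : ℕ → ℂ) (X k : ℕ) :
    ∑ n ∈ Finset.Icc 1 (X ^ k), ‖Cc c X k n‖ ^ 2 ≤
      k.factorial * (∑ p ∈ Pr X, ‖c p‖ ^ 2) ^ k := by
  classical
  have h1 : ∀ n, ‖Cc c X k n‖ ^ 2 ≤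
      k.factorial * ∑ f ∈ Fb X k n, ∏ i, ‖c (f i)‖ ^ 2 := by
    intro n
    have h0 : ‖Cc c X k n‖ ≤ ∑ f ∈ Fb X k n, ∏ i, ‖c (f i)‖ := by
      unfold Cc
      refine (norm_sum_le _ _).trans (le_of_eq ?_)
      refine Finset.sum_congr rfl fun f _ => ?_
      rw [norm_prod]
    have h2 := sq_sum_le_card_mul_sum_sq (s := Fb X k n) (f := fun f => ∏ i, ‖c (f i)‖)
    refine (pow_le_pow_left₀ (norm_nonneg _) h0 2).trans (h2.trans ?_)
    simp_rw [← Finset.prod_pow]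
    apply mul_le_mul_of_nonneg_right _ (Finset.sum_nonneg fun f _ =>
      Finset.prod_nonneg fun i _ => sq_nonneg _)
    exact_mod_cast card_Fb X k n
  calc ∑ n ∈ Finset.Icc 1 (X ^ k), ‖Cc c X k n‖ ^ 2
      ≤ ∑ n ∈ Finset.Icc 1 (X ^ k), (k.factorial : ℝ) * ∑ f ∈ Fb X k n, ∏ i, ‖c (f i)‖ ^ 2 :=
        Finset.sum_le_sum fun n _ => h1 n
    _ = k.factorial * ∑ f ∈ Fintype.piFinset (fun _ : Fin k => Pr X), ∏ i, ‖c (f i)‖ ^ 2 := by
        rw [← Finset.mul_sum, ← Finset.sum_fiberwise_of_maps_to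
          (g := fun f : Fin k → ℕ => ∏ i, f i) (t := Finset.Icc 1 (X ^ k))
          (fun f hf => prod_mem hf)]
        rfl
    _ = _ := by
        rw [← Finset.prod_univ_sum (fun _ : Fin k => Pr X) (fun _ p => ‖c p‖ ^ 2)]
        simp

/-- GX/B -/
theorem momc : Pool.Agent.N964.GX.S_momc := by
  obtain ⟨C, hC, h⟩ := mv
  refine ⟨C, hC, ?_⟩
  intro X k c T hT hX
  have h1 := h (X ^ k) (fun n => Cc c X k n) T hT (by exact_mod_cast hX)
  have h2 : ∀ t : ℝ, ‖∑ p ∈ (Finset.range (X + 1)).filter Nat.Prime,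
      c p * (p : ℂ) ^ (-(t : ℂ) * I)‖ ^ (2 * k) =
      ‖∑ n ∈ Finset.Icc 1 (X ^ k), Cc c X k n * (n : ℂ) ^ (-(t : ℂ) * I)‖ ^ 2 := by
    intro t
    rw [← pow_eqc, norm_pow, ← pow_mul, mul_comm 2 k]
    rfl
  simp_rw [h2]
  refine h1.trans ?_
  rw [mul_assoc (C * T)]
  exact mul_le_mul_of_nonneg_left (sum_Cc c X k) (by positivity)

end Pool.Agent.N607.GXB
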