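import Pool.Agent.N699.PC.Stm

/-!
# Project Q3 (helper699), part RT2 (helper607): primitive representations by `2 a ^ 2 + 3 b ^ 2`
-/

set_option autoImplicit false

namespace Pool.Agent.N607.Q3

open Pool.Agent.N699.PC

/-- Thue's lemma -/
theorem thue (M U V : ℕ) [NeZero M] (h : M < (U + 1) * (V + 1)) (z : ZMod M) :
    ∃ u v : ℤ, (u ≠ 0 ∨ v ≠ 0) ∧ |u| ≤ U ∧ |v| ≤ V ∧ (u : ZMod M) = z * v := by
  obtain ⟨x, y, hxy, he⟩ := Fintype.exists_ne_map_eq_of_card_lt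
    (fun p : Fin (U + 1) × Fin (V + 1) => ((p.1 : ℕ) : ZMod M) - z * ((p.2 : ℕ) : ZMod M)) (by
      rw [ZMod.card, Fintype.card_prod, Fintype.card_fin, Fintype.card_fin]
      exact h)
  obtain ⟨⟨x1, hx1⟩, ⟨x2, hx2⟩⟩ := x
  obtain ⟨⟨y1, hy1⟩, ⟨y2, hy2⟩⟩ := y
  refine ⟨(x1 : ℤ) - y1, (x2 : ℤ) - y2, ?_, ?_, ?_, ?_⟩
  · by_contra hc
    push Not at hc
    obtain ⟨h1, h2⟩ := hc
    have h3 : x1 = y1 := by omega
    have h4 : x2 = y2 := by omega
    subst h3 h4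
    exact hxy rfl
  · rw [abs_le]
    constructor <;> omega
  · rw [abs_le]
    constructor <;> omega
  · push_cast
    simp only at he
    linear_combination he

theorem ex_rep (M : ℕ) (hM : M % 24 = 11) (z : ℤ) (hz : (M : ℤ) ∣ z ^ 2 + 6) :
    ∃ a b : ℤ, 2 * a ^ 2 + 3 * b ^ 2 = M ∧ (M : ℤ) ∣ z * b - 2 * a := by
  have : NeZero M := ⟨by omega⟩
  have hM0 : (0 : ℤ) < M := by omega
  have hU1 := Nat.sqrt_le' (2 * M)
  have hU2 := Nat.succ_le_succ_sqrt' (2 * M)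
  have hV1 := Nat.sqrt_le' (M / 2)
  have hV2 := Nat.succ_le_succ_sqrt' (M / 2)
  obtain ⟨u, v, h0, hu, hv, he⟩ := thue M (Nat.sqrt (2 * M)) (Nat.sqrt (M / 2)) (by
    have h1 : M ^ 2 < ((Nat.sqrt (2 * M) + 1) * (Nat.sqrt (M / 2) + 1)) ^ 2 := by
      rw [mul_pow]
      calc M ^ 2 < (2 * M + 1) * (M / 2 + 1) := by
            obtain ⟨q, hq⟩ : ∃ q, M = 2 * q + 1 := ⟨M / 2, by omega⟩
            have h2 : M / 2 = q := by omega
            rw [h2, hq]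
            nlinarith
        _ ≤ _ := Nat.mul_le_mul hU2 hV2
    exact lt_of_pow_lt_pow_left₀ 2 (Nat.zero_le _) h1) (z : ZMod M)
  have hd : (M : ℤ) ∣ u - z * v := by
    rw [← ZMod.intCast_zmod_eq_zero_iff_dvd]
    push_cast
    rw [he, sub_self]
  obtain ⟨k, hk⟩ := hd
  obtain ⟨l, hl⟩ := hz
  have hu2 : u ^ 2 ≤ 2 * M := by
    have h1 : u ^ 2 ≤ ((Nat.sqrt (2 * M) : ℕ) : ℤ) ^ 2 := by
      rw [← sq_abs]
      exact pow_le_pow_left₀ (abs_nonneg u) hu 2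
    have h2 : ((Nat.sqrt (2 * M) : ℕ) : ℤ) ^ 2 ≤ 2 * M := by exact_mod_cast hU1
    linarith
  have hv2 : v ^ 2 ≤ (M / 2 : ℕ) := by
    have h1 : v ^ 2 ≤ ((Nat.sqrt (M / 2) : ℕ) : ℤ) ^ 2 := by
      rw [← sq_abs]
      exact pow_le_pow_left₀ (abs_nonneg v) hv 2
    have h2 : ((Nat.sqrt (M / 2) : ℕ) : ℤ) ^ 2 ≤ (M / 2 : ℕ) := by exact_mod_cast hV1
    linarith
  have ht : u ^ 2 + 6 * v ^ 2 = M * (k * (u + z * v) + l * v ^ 2) := by
    linear_combination (u + z * v) * hk + v ^ 2 * hl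
  obtain ⟨t, htd⟩ : ∃ t, t = k * (u + z * v) + l * v ^ 2 := ⟨_, rfl⟩
  rw [← htd] at ht
  have hpos : 0 < u ^ 2 + 6 * v ^ 2 := by
    rcases h0 with h | h
    · have := pow_pos (abs_pos.2 h) 2
      rw [sq_abs] at this
      nlinarith [sq_nonneg v]
    · have := pow_pos (abs_pos.2 h) 2
      rw [sq_abs] at this
      nlinarith [sq_nonneg u]
  have ht0 : 0 < t := by
    by_contra hc
    push Not at hc
    nlinarith
  have ht5 : t < 5 := by
    by_contra hc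
    push Not at hc
    have h1 : (M : ℤ) * 5 ≤ M * t := by nlinarith
    have h2 : v ^ 2 * 2 < M := by omega
    nlinarith
  have hu3 : (∃ q, u = 3 * q) ∨ ∃ w, u ^ 2 = 3 * w + 1 := by
    rcases (by omega : u % 3 = 0 ∨ u % 3 = 1 ∨ u % 3 = 2) with h | h | h
    · exact Or.inl ⟨u / 3, by omega⟩
    · obtain ⟨q, hq⟩ : ∃ q, u = 3 * q + 1 := ⟨u / 3, by omega⟩
      exact Or.inr ⟨3 * q ^ 2 + 2 * q, by rw [hq]; ring⟩
    · obtain ⟨q, hq⟩ : ∃ q, u = 3 * q + 2 := ⟨u / 3, by omega⟩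
      exact Or.inr ⟨3 * q ^ 2 + 4 * q + 1, by rw [hq]; ring⟩
  have hu3' : ∃ w, u ^ 2 = 3 * w ∨ u ^ 2 = 3 * w + 1 := by
    rcases hu3 with ⟨q, hq⟩ | ⟨w, hw⟩
    · exact ⟨3 * q ^ 2, Or.inl (by rw [hq]; ring)⟩
    · exact ⟨w, Or.inr hw⟩
  obtain ⟨w, hw⟩ := hu3'
  have hcase : t = 1 ∨ t = 2 ∨ t = 3 ∨ t = 4 := by omega
  rcases hcase with h | h | h | h
  · exfalso
    rw [h] at ht
    omega
  · rw [h] at ht
    rcases Int.even_or_odd' u with ⟨a, ha | ha⟩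
    · refine ⟨a, v, ?_, ?_⟩
      · have h1 : u ^ 2 = 4 * a ^ 2 := by rw [ha]; ring
        omega
      · refine ⟨-k, ?_⟩
        linear_combination (-1 : ℤ) * hk + ha
    · exfalso
      have h1 : u ^ 2 = 2 * (2 * a ^ 2 + 2 * a) + 1 := by rw [ha]; ring
      omega
  · rw [h] at ht
    rcases hu3 with ⟨q, hq⟩ | ⟨w', hw'⟩
    · refine ⟨-v, q, ?_, ?_⟩
      · have h1 : u ^ 2 = 9 * q ^ 2 := by rw [hq]; ring
        have h2 : (-v) ^ 2 = v ^ 2 := by ring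
        rw [h2]
        omega
      · have h1 : IsCoprime (M : ℤ) 3 := by
          obtain ⟨m, hm⟩ : ∃ m : ℤ, (M : ℤ) = 24 * m + 11 := ⟨(M : ℤ) / 24, by omega⟩
          exact ⟨2, -(16 * m + 7), by rw [hm]; ring⟩
        refine h1.dvd_of_dvd_mul_left ⟨z * k + l * v, ?_⟩
        linear_combination z * hk + v * hl - z * hq
    · exfalso
      omega
  · exfalso
    rw [h] at ht
    omega

theorem prim (M : ℕ) (hM : M % 24 = 11) (z a b : ℤ) (h1 : 2 * a ^ 2 + 3 * b ^ 2 = M)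
    (h2 : (M : ℤ) ∣ z * b - 2 * a) (hz : (M : ℤ) ∣ z ^ 2 + 6) (p : ℕ) (hp : p.Prime)
    (ha : (p : ℤ) ∣ a) (hb : (p : ℤ) ∣ b) : False := by
  obtain ⟨a1, ha1⟩ := ha
  obtain ⟨b1, hb1⟩ := hb
  obtain ⟨k, hk⟩ := h2
  obtain ⟨l, hl⟩ := hz
  obtain ⟨m, hm⟩ : ∃ m, m = 2 * a1 ^ 2 + 3 * b1 ^ 2 := ⟨_, rfl⟩
  have hMm : (M : ℤ) = p ^ 2 * m := by
    rw [← h1, hm, ha1, hb1]
    ring
  have hp0 : (p : ℤ) ≠ 0 := by exact_mod_cast hp.ne_zero
  have hm0 : m ≠ 0 := by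
    rintro rfl
    rw [mul_zero] at hMm
    omega
  have e1 : z * b1 - 2 * a1 = p * m * k := by
    apply mul_left_cancel₀ hp0
    rw [hMm, ha1, hb1] at hk
    linear_combination hk
  have e2 : m * 2 = m * (p * (-(k * (z * b1 + 2 * a1)) + p * l * b1 ^ 2)) := by
    rw [hMm] at hl
    linear_combination (-(z * b1 + 2 * a1)) * e1 + b1 ^ 2 * hl + 2 * hm
  have e3 := mul_left_cancel₀ hm0 e2
  have e4 : (p : ℤ) ∣ 2 := ⟨_, e3⟩
  have e5 : p ∣ 2 := by exact_mod_cast e4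
  have e6 : p = 2 := (Nat.prime_dvd_prime_iff_eq hp Nat.prime_two).1 e5
  rw [e6] at hMm
  push_cast at hMm
  omega

/-- the sign -/
def sg (ε : Bool) : ℤ := if ε then 1 else -1

theorem sg_sq (ε : Bool) : sg ε ^ 2 = 1 := by
  cases ε <;> simp [sg]

/-- the root belonging to a representation -/
noncomputable def zz (M a b : ℕ) (ε : Bool) : ZMod M :=
  (sg ε : ZMod M) * (2 * (a : ZMod M) * (b : ZMod M)⁻¹)

theorem cop (M : ℕ) (hM : M % 24 = 11) (a b : ℕ) (h1 : 2 * a ^ 2 + 3 * b ^ 2 = M)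
    (h : Nat.Coprime a b) : Nat.Coprime b M := by
  by_contra hc
  rw [Nat.Prime.not_coprime_iff_dvd] at hc
  obtain ⟨p, hp, hpb, hpM⟩ := hc
  have h2 : p ∣ 2 * a ^ 2 := by
    have h3 : p ∣ 3 * b ^ 2 := Dvd.dvd.mul_left (dvd_pow hpb two_ne_zero) 3
    have h4 : p ∣ 2 * a ^ 2 + 3 * b ^ 2 := by rw [h1]; exact hpM
    exact (Nat.dvd_add_left h3).1 h4
  rcases hp.dvd_mul.1 h2 with h3 | h3
  · have h4 : p = 2 := (Nat.prime_dvd_prime_iff_eq hp Nat.prime_two).1 h3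
    rw [h4] at hpM
    omega
  · have h4 := hp.dvd_of_dvd_pow h3
    exact Nat.Prime.not_coprime_iff_dvd.2 ⟨p, hp, h4, hpb⟩ h

theorem zz_mul (M : ℕ) (hM : M % 24 = 11) (a b : ℕ) (h1 : 2 * a ^ 2 + 3 * b ^ 2 = M)
    (h : Nat.Coprime a b) (ε : Bool) : zz M a b ε * b = sg ε * (2 * a) := by
  have h2 := ZMod.coe_mul_inv_eq_one b (cop M hM a b h1 h)
  unfold zz
  linear_combination (sg ε : ZMod M) * 2 * a * h2

theorem zz_sq (M : ℕ) (hM : M % 24 = 11) (a b : ℕ) (h1 : 2 * a ^ 2 + 3 * b ^ 2 = M)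
    (h : Nat.Coprime a b) (ε : Bool) : zz M a b ε ^ 2 + 6 = 0 := by
  have h2 := ZMod.coe_mul_inv_eq_one b (cop M hM a b h1 h)
  have h3 := zz_mul M hM a b h1 h ε
  have h4 : (2 * (a : ZMod M) ^ 2 + 3 * (b : ZMod M) ^ 2) = 0 := by
    have h5 : ((2 * a ^ 2 + 3 * b ^ 2 : ℕ) : ZMod M) = 0 := by
      rw [h1]
      exact ZMod.natCast_self M
    push_cast at h5
    exact h5
  have h5 : (sg ε : ZMod M) ^ 2 = 1 := by
    have h6 := sg_sq ε
    have h7 : ((sg ε ^ 2 : ℤ) : ZMod M) = 1 := by rw [h6]; simp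
    push_cast at h7
    exact h7
  have h6 : (zz M a b ε ^ 2 + 6) * (b : ZMod M) ^ 2 = 0 := by
    linear_combination (zz M a b ε * b + sg ε * (2 * a)) * h3 + 4 * (a : ZMod M) ^ 2 * h5 + 2 * h4
  have h7 : zz M a b ε ^ 2 + 6 = (zz M a b ε ^ 2 + 6) * (b : ZMod M) ^ 2 *
      ((b : ZMod M)⁻¹) ^ 2 := by
    linear_combination (-(zz M a b ε ^ 2 + 6)) * ((b : ZMod M) * (b : ZMod M)⁻¹ + 1) * h2
  rw [h7, h6, zero_mul]

theorem zz_inj (M : ℕ) (hM : M % 24 = 11) (a b a' b' : ℕ) (h1 : 2 * a ^ 2 + 3 * b ^ 2 = M)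
    (h1' : 2 * a' ^ 2 + 3 * b' ^ 2 = M) (h : Nat.Coprime a b) (h' : Nat.Coprime a' b')
    (ha : 1 ≤ a) (hb : 1 ≤ b) (ha' : 1 ≤ a') (hb' : 1 ≤ b') (ε ε' : Bool)
    (e : zz M a b ε = zz M a' b' ε') : a = a' ∧ b = b' ∧ ε = ε' := by
  have h3 := zz_mul M hM a b h1 h ε
  have h3' := zz_mul M hM a' b' h1' h' ε'
  have h4 : (M : ℤ) ∣ 2 * (sg ε * a * b' - sg ε' * a' * b) := by
    rw [← ZMod.intCast_zmod_eq_zero_iff_dvd]
    push_cast
    rw [e] at h3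
    linear_combination (-(b' : ZMod M)) * h3 + (b : ZMod M) * h3'
  have h5 : (2 * (sg ε * a) * (sg ε' * a') + 3 * b * b' : ℤ) ^ 2 +
      6 * (sg ε * a * b' - sg ε' * a' * b) ^ 2 = (M : ℤ) ^ 2 := by
    have h6 : (2 * (a : ℤ) ^ 2 + 3 * b ^ 2) = M := by exact_mod_cast h1
    have h6' : (2 * (a' : ℤ) ^ 2 + 3 * b' ^ 2) = M := by exact_mod_cast h1'
    have h7 := sg_sq ε
    have h7' := sg_sq ε'
    have h8 : (M : ℤ) ^ 2 = (2 * (sg ε ^ 2 * (a : ℤ) ^ 2) + 3 * b ^ 2) *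
        (2 * (sg ε' ^ 2 * (a' : ℤ) ^ 2) + 3 * b' ^ 2) := by
      rw [h7, h7', one_mul, one_mul, h6, h6']
      ring
    rw [h8]
    ring
  have hM0 : (0 : ℤ) < M := by omega
  obtain ⟨W, hW⟩ : ∃ W : ℤ, W = sg ε * a * b' - sg ε' * a' * b := ⟨_, rfl⟩
  rw [← hW] at h4 h5
  have h6 : 2 * W = 0 := by
    refine Int.eq_zero_of_abs_lt_dvd h4 ?_
    refine abs_lt_of_sq_lt_sq ?_ hM0.le
    nlinarith [sq_nonneg (2 * (sg ε * a) * (sg ε' * a') + 3 * b * b' : ℤ)]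
  have h7 : sg ε * a * b' = sg ε' * a' * b := by
    have : W = 0 := by omega
    rw [hW] at this
    linarith
  have p1 : (0 : ℤ) < (a : ℤ) * b' := by positivity
  have p2 : (0 : ℤ) < (a' : ℤ) * b := by positivity
  have h8 : ε = ε' ∧ (a : ℤ) * b' = a' * b := by
    cases ε <;> cases ε' <;> simp only [sg, if_true, Bool.false_eq_true, if_false] at h7 ⊢
    · exact ⟨trivial, by linarith⟩
    · exfalso
      nlinarith
    · exfalso
      nlinarith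
    · exact ⟨trivial, by linarith⟩
  obtain ⟨h9, h10⟩ := h8
  have h11 : a * b' = a' * b := by exact_mod_cast h10
  have h12 : a ∣ a' := h.dvd_of_dvd_mul_right ⟨b', h11.symm⟩
  have h13 : a' ∣ a := h'.dvd_of_dvd_mul_right ⟨b, h11⟩
  have h14 : a = a' := Nat.dvd_antisymm h12 h13
  refine ⟨h14, ?_, h9⟩
  rw [h14] at h11
  exact (Nat.eq_of_mul_eq_mul_left (by omega) h11).symm

theorem t_RT2 : Pool.Agent.N699.PC.RT2 := by
  intro M hM
  have hne : NeZero M := ⟨by omega⟩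
  unfold R2 rt
  obtain ⟨A, hA⟩ : ∃ A, A = ((Finset.range (M + 1) ×ˢ Finset.range (M + 1)).filter
    (fun p => 1 ≤ p.1 ∧ 1 ≤ p.2 ∧ 2 * p.1 ^ 2 + 3 * p.2 ^ 2 = M ∧ Nat.Coprime p.1 p.2)) :=
    ⟨_, rfl⟩
  rw [← hA]
  have hmem : ∀ x, x ∈ A → 1 ≤ x.1 ∧ 1 ≤ x.2 ∧ 2 * x.1 ^ 2 + 3 * x.2 ^ 2 = M ∧
      Nat.Coprime x.1 x.2 := by
    intro x hx
    rw [hA, Finset.mem_filter] at hx
    exact hx.2
  have hc : 2 * A.card = (A ×ˢ (Finset.univ : Finset Bool)).card := by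
    rw [Finset.card_product, Finset.card_univ, Fintype.card_bool, mul_comm]
  rw [hc]
  refine Finset.card_bij (fun x _ => (zz M x.1.1 x.1.2 x.2).val) ?_ ?_ ?_
  · rintro ⟨⟨a, b⟩, ε⟩ hx
    obtain ⟨-, -, h3, h4⟩ := hmem _ (Finset.mem_product.1 hx).1
    dsimp only at h3 h4 ⊢
    rw [Finset.mem_filter, Finset.mem_range]
    refine ⟨ZMod.val_lt _, ?_⟩
    rw [← ZMod.intCast_zmod_eq_zero_iff_dvd]
    push_cast
    rw [ZMod.natCast_zmod_val, sub_neg_eq_add]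
    exact zz_sq M hM a b h3 h4 ε
  · rintro ⟨⟨a, b⟩, ε⟩ hx ⟨⟨a', b'⟩, ε'⟩ hx' he
    obtain ⟨h1, h2, h3, h4⟩ := hmem _ (Finset.mem_product.1 hx).1
    obtain ⟨h1', h2', h3', h4'⟩ := hmem _ (Finset.mem_product.1 hx').1
    dsimp only at h1 h2 h3 h4 h1' h2' h3' h4' he
    obtain ⟨e1, e2, e3⟩ := zz_inj M hM a b a' b' h3 h3' h4 h4' h1 h2 h1' h2' ε ε'
      (ZMod.val_injective M he)
    rw [e1, e2, e3]
  · intro z hz
    rw [Finset.mem_filter, Finset.mem_range] at hz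
    obtain ⟨hzM, hz⟩ := hz
    rw [sub_neg_eq_add] at hz
    obtain ⟨a, b, h1, h2⟩ := ex_rep M hM z hz
    have ha : a ≠ 0 := by
      rintro rfl
      omega
    have hb : b ≠ 0 := by
      rintro rfl
      omega
    have h3 : 2 * a.natAbs ^ 2 + 3 * b.natAbs ^ 2 = M := by
      have h4 : ((2 * a.natAbs ^ 2 + 3 * b.natAbs ^ 2 : ℕ) : ℤ) = M := by
        push_cast
        rw [sq_abs, sq_abs]
        exact h1
      exact_mod_cast h4
    have h4 : Nat.Coprime a.natAbs b.natAbs := by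
      by_contra hcc
      rw [Nat.Prime.not_coprime_iff_dvd] at hcc
      obtain ⟨p, hp, hpa, hpb⟩ := hcc
      exact prim M hM z a b h1 h2 hz p hp (Int.natCast_dvd.2 hpa) (Int.natCast_dvd.2 hpb)
    have ha1 : 1 ≤ a.natAbs := by omega
    have hb1 : 1 ≤ b.natAbs := by omega
    have ha2 : a.natAbs ≤ M := by nlinarith
    have hb2 : b.natAbs ≤ M := by nlinarith
    refine ⟨((a.natAbs, b.natAbs), decide (0 < a * b)), ?_, ?_⟩
    · rw [Finset.mem_product]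
      refine ⟨?_, Finset.mem_univ _⟩
      rw [hA, Finset.mem_filter, Finset.mem_product, Finset.mem_range, Finset.mem_range]
      exact ⟨⟨by dsimp only; omega, by dsimp only; omega⟩, ha1, hb1, h3, h4⟩
    · dsimp only
      have h5 := ZMod.coe_mul_inv_eq_one b.natAbs (cop M hM _ _ h3 h4)
      have h6 : ((z * b - 2 * a : ℤ) : ZMod M) = 0 := by
        rw [ZMod.intCast_zmod_eq_zero_iff_dvd]
        exact h2
      push_cast at h6
      have h7 : (sg (decide (0 < a * b)) : ZMod M) * (2 * (a.natAbs : ZMod M)) =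
          (z : ZMod M) * (b.natAbs : ZMod M) := by
        rw [Nat.cast_natAbs, Nat.cast_natAbs]
        rcases lt_or_gt_of_ne ha with ha' | ha' <;> rcases lt_or_gt_of_ne hb with hb' | hb'
        · rw [abs_of_neg ha', abs_of_neg hb', decide_eq_true (mul_pos_of_neg_of_neg ha' hb')]
          simp only [sg, if_true]
          push_cast
          linear_combination h6
        · rw [abs_of_neg ha', abs_of_pos hb',
            decide_eq_false (not_lt.2 (mul_neg_of_neg_of_pos ha' hb').le)]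
          simp only [sg, Bool.false_eq_true, if_false]
          push_cast
          linear_combination (-1 : ZMod M) * h6
        · rw [abs_of_pos ha', abs_of_neg hb',
            decide_eq_false (not_lt.2 (mul_neg_of_pos_of_neg ha' hb').le)]
          simp only [sg, Bool.false_eq_true, if_false]
          push_cast
          linear_combination h6
        · rw [abs_of_pos ha', abs_of_pos hb', decide_eq_true (mul_pos ha' hb')]
          simp only [sg, if_true]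
          push_cast
          linear_combination (-1 : ZMod M) * h6
      have h8 : zz M a.natAbs b.natAbs (decide (0 < a * b)) = (z : ZMod M) := by
        unfold zz
        linear_combination (b.natAbs : ZMod M)⁻¹ * h7 + (z : ZMod M) * h5
      rw [h8]
      exact ZMod.val_cast_of_lt hzM

end Pool.Agent.N607.Q3
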