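import Pool.Agent.N59.TT.Stm

/-!
Finitely generated virtually abelian torsion groups are finite.
-/

set_option autoImplicit false

namespace Pool.Agent.N607.TTTOR

theorem main : Pool.Agent.N59.TT.S_TOR := by
  intro G _ hfg hA htor
  obtain ⟨A, hAf, hcomm⟩ := hA
  have hAfg : Group.FG A := Subgroup.fg_of_index_ne_zero (H := A)
  let _ : CommGroup A :=
    { (inferInstance : Group A) with
      mul_comm := fun x y => Subtype.ext (hcomm x x.2 y y.2) }
  have hAfin : Finite A := by
    apply CommGroup.finite_of_fg_isMulTorsion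
    intro x
    obtain ⟨n, hn, h⟩ := htor (x : G)
    rw [isOfFinOrder_iff_pow_eq_one]
    exact ⟨n, hn, Subtype.ext h⟩
  have hq : Finite (G ⧸ A) := Subgroup.finite_quotient_of_finiteIndex
  exact Finite.of_subgroup_quotient A

end Pool.Agent.N607.TTTOR
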